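import Pool.Agent.Helper49.LT.StC

set_option autoImplicit false

namespace Pool.Agent.Helper22.LT

open Helper49.LT Helper97.CB MeasureTheory Set Filter Metric

private theorem norm_ee_sub (a b : ℝ) : ‖ee a - ee b‖ ≤ |a - b| := by
  have h1 : ee a = ee b * ee (a - b) := by rw [← ee_add]; congr 1; ring
  have h2 : ee a - ee b = ee b * (ee (a - b) - 1) := by rw [h1]; ring
  rw [h2, norm_mul, norm_ee, one_mul]
  have h3 := @Real.norm_exp_I_mul_ofReal_sub_one_le (a - b)
  unfold ee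
  rw [mul_comm, ← Real.norm_eq_abs]
  exact h3

private theorem int_ee (n : ℕ) (hn : n ≠ 0) :
    ∫ t in (0 : ℝ)..(2 * Real.pi), ee (-(n : ℝ) * t) = 0 := by
  have hc : ((-(n : ℝ) : ℝ) : ℂ) * Complex.I ≠ 0 := by
    refine mul_ne_zero ?_ Complex.I_ne_zero
    rw [Ne, Complex.ofReal_eq_zero, neg_eq_zero]
    exact_mod_cast hn
  have hd : ∀ t : ℝ, HasDerivAt (fun s : ℝ => (((-(n : ℝ) : ℝ) : ℂ) * Complex.I)⁻¹ * ee (-(n : ℝ) * s))
      (ee (-(n : ℝ) * t)) t := by
    intro t
    have h := (hasDerivAt_ee (-(n : ℝ)) t).const_mul ((((-(n : ℝ) : ℝ) : ℂ) * Complex.I)⁻¹)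
    have e : (((-(n : ℝ) : ℝ) : ℂ) * Complex.I)⁻¹ *
        (((-(n : ℝ) : ℝ) : ℂ) * Complex.I * ee (-(n : ℝ) * t)) = ee (-(n : ℝ) * t) := by
      rw [← mul_assoc, inv_mul_cancel₀ hc, one_mul]
    rw [e] at h
    exact h
  have hcont : Continuous fun t : ℝ => ee (-(n : ℝ) * t) :=
    continuous_ee.comp (continuous_const.mul continuous_id)
  rw [intervalIntegral.integral_eq_sub_of_hasDerivAt (fun t _ => hd t) (hcont.intervalIntegrable _ _)]
  have h := ee_int (-(n : ℤ)) 0
  push_cast at h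
  rw [zero_add] at h
  rw [h]
  simp

private theorem continuous_wW (ω : ℂ) (n : ℕ) : Continuous (wW ω n) := by
  unfold wW
  have := continuous_ee
  fun_prop

private theorem wW_bd {ω : ℂ} (hω : ‖ω‖ ≤ 1) (n : ℕ) (u : ℝ) : 0 ≤ wW ω n u ∧ wW ω n u ≤ 2 := by
  have h : |(ω * ee (-(n : ℝ) * u)).re| ≤ 1 := by
    refine (Complex.abs_re_le_norm _).trans ?_
    rw [norm_mul, norm_ee, mul_one]; exact hω
  rw [abs_le] at h
  unfold wW
  constructor <;> linarith [h.1, h.2]

private theorem wW_lip {ω : ℂ} (hω : ‖ω‖ ≤ 1) (n : ℕ) (hn : n ≤ 10) (u v : ℝ) :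
    |wW ω n u - wW ω n v| ≤ 10 * |u - v| := by
  have h : wW ω n u - wW ω n v = (ω * (ee (-(n : ℝ) * u) - ee (-(n : ℝ) * v))).re := by
    unfold wW; rw [mul_sub, Complex.sub_re]; ring
  rw [h]
  refine (Complex.abs_re_le_norm _).trans ?_
  rw [norm_mul]
  have h1 := norm_ee_sub (-(n : ℝ) * u) (-(n : ℝ) * v)
  have h2 : |(-(n : ℝ) * u) - (-(n : ℝ) * v)| = n * |u - v| := by
    rw [← mul_sub, abs_mul, abs_neg, Nat.abs_cast]
  rw [h2] at h1
  have h3 : (n : ℝ) ≤ 10 := by exact_mod_cast hn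
  have h4 := abs_nonneg (u - v)
  have h5 := norm_nonneg (ee (-(n : ℝ) * u) - ee (-(n : ℝ) * v))
  have h6 := norm_nonneg ω
  nlinarith

private theorem wW_per (ω : ℂ) (n : ℕ) (u : ℝ) : wW ω n (u + 2 * Real.pi) = wW ω n u := by
  have h := ee_int (-(n : ℤ)) u
  push_cast at h
  unfold wW
  rw [h]

private theorem ee_even (m : ℕ) : ee (-((2 * m : ℕ) : ℝ) * Real.pi) = 1 := by
  have h := ee_int (-(m : ℤ)) 0
  push_cast at h
  rw [zero_add, mul_zero, ee_zero] at h
  rw [← h]
  congr 1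
  push_cast
  ring

private theorem wW_pi (ω : ℂ) (m : ℕ) (u : ℝ) : wW ω (2 * m) (u + Real.pi) = wW ω (2 * m) u := by
  unfold wW
  rw [mul_add, ee_add, ee_even, mul_one]

private theorem int_wW (ω : ℂ) (n : ℕ) (hn : n ≠ 0) :
    ∫ u in (0 : ℝ)..(2 * Real.pi), wW ω n u = 2 * Real.pi := by
  have hcont : Continuous fun t : ℝ => ω * ee (-(n : ℝ) * t) :=
    continuous_const.mul (continuous_ee.comp (continuous_const.mul continuous_id))
  have h1 : ∫ u in (0 : ℝ)..(2 * Real.pi), (ω * ee (-(n : ℝ) * u)).re = 0 := by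
    have h := ContinuousLinearMap.intervalIntegral_comp_comm Complex.reCLM
      (hcont.intervalIntegrable (μ := volume) 0 (2 * Real.pi))
    rw [intervalIntegral.integral_const_mul, int_ee n hn, mul_zero] at h
    simpa using h
  have hc2 : Continuous fun u : ℝ => (ω * ee (-(n : ℝ) * u)).re := Complex.continuous_re.comp hcont
  unfold wW
  rw [intervalIntegral.integral_add intervalIntegrable_const (hc2.intervalIntegrable _ _), h1]
  simp

private theorem wW_sum (ω : ℂ) (n : ℕ) (t : ℝ) :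
    wW ω n t + (wW ω n (t - Real.pi / 3) + wW ω n (t + Real.pi / 3)) =
      3 + (1 + 2 * Real.cos ((n : ℝ) * (Real.pi / 3))) * (ω * ee (-(n : ℝ) * t)).re := by
  have h1 : ee (-(n : ℝ) * (t - Real.pi / 3)) = ee (-(n : ℝ) * t) * ee ((n : ℝ) * (Real.pi / 3)) := by
    rw [← ee_add]; congr 1; ring
  have h2 : ee (-(n : ℝ) * (t + Real.pi / 3)) =
      ee (-(n : ℝ) * t) * ee (-((n : ℝ) * (Real.pi / 3))) := by
    rw [← ee_add]; congr 1; ring
  unfold wW
  rw [h1, h2, ee_neg]
  simp only [Complex.mul_re, Complex.mul_im, Complex.conj_re, Complex.conj_im, ee_re, ee_im]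
  ring

/-! ### the substitution -/

private theorem hasDerivAt_T (x : ℂ × ℂ) (u : ℝ) :
    HasDerivAt (fun u => u + st (rot u x)) (1 - 6 * k3 (rot u x) - 20 * k5 (rot u x)) u := by
  have h1 : HasDerivAt (fun s => (rot s x).1) (-3 * Complex.I * (rot u x).1) u := by
    have h := (hasDerivAt_ee (-3) u).mul_const x.1
    have e : -3 * Complex.I * (rot u x).1 = ((-3 : ℝ) : ℂ) * Complex.I * ee (-3 * u) * x.1 := by
      simp only [rot]; push_cast; ring
    rw [e]
    exact h
  have h2 : HasDerivAt (fun s => (rot s x).2) (-5 * Complex.I * (rot u x).2) u := by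
    have h := (hasDerivAt_ee (-5) u).mul_const x.2
    have e : -5 * Complex.I * (rot u x).2 = ((-5 : ℝ) : ℂ) * Complex.I * ee (-5 * u) * x.2 := by
      simp only [rot]; push_cast; ring
    rw [e]
    exact h
  have h1i : HasDerivAt (fun s => ((rot s x).1).im) (-3 * Complex.I * (rot u x).1).im u :=
    (Complex.imCLM.hasFDerivAt.comp_hasDerivAt u h1)
  have h2i : HasDerivAt (fun s => ((rot s x).2).im) (-5 * Complex.I * (rot u x).2).im u :=
    (Complex.imCLM.hasFDerivAt.comp_hasDerivAt u h2)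
  have h3 := ((hasDerivAt_id u).add (h1i.const_mul 2)).add (h2i.const_mul 4)
  have e1 : (fun u => u + st (rot u x)) =
      ((id + fun s => 2 * ((rot s x).1).im) + fun s => 4 * ((rot s x).2).im) := by
    funext s
    simp only [st, s3, s5, Pi.add_apply, id]
    ring
  have e2 : 1 - 6 * k3 (rot u x) - 20 * k5 (rot u x) =
      1 + 2 * (-3 * Complex.I * (rot u x).1).im + 4 * (-5 * Complex.I * (rot u x).2).im := by
    simp only [k3, k5, Complex.mul_im, Complex.mul_re, Complex.I_re, Complex.I_im, Complex.neg_re,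
      Complex.neg_im, Complex.re_ofNat, Complex.im_ofNat]
    ring
  rw [e1, e2]
  exact h3

private theorem continuous_k3 : Continuous k3 := by unfold k3; fun_prop
private theorem continuous_k5 : Continuous k5 := by unfold k5; fun_prop
private theorem continuous_st : Continuous st := by unfold st s3 s5; fun_prop

private theorem abs_st (v : ℂ × ℂ) : |st v| ≤ 6 * ‖v‖ := by
  have h1 := abs_s3 v
  have h2 := abs_s5 v
  have h3 := fst_le v
  have h4 := snd_le v
  unfold st
  rw [abs_le] at *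
  constructor <;> linarith [h1.1, h1.2, h2.1, h2.2]

private theorem re_zh (v : ℂ × ℂ) : |(zh v (st v)).re - 1| ≤ 8 * ‖v‖ := by
  have h1 : |(zh v (st v) - ee (st v)).re| ≤ 2 * ‖v‖ :=
    (Complex.abs_re_le_norm _).trans (zh_sub_ee v _)
  have h2 : |(ee (st v) - ee 0).re| ≤ 6 * ‖v‖ := by
    refine (Complex.abs_re_le_norm _).trans ((norm_ee_sub _ _).trans ?_)
    rw [sub_zero]; exact abs_st v
  rw [Complex.sub_re] at h1 h2
  rw [ee_zero, Complex.one_re] at h2
  rw [abs_le] at *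
  constructor <;> linarith [h1.1, h1.2, h2.1, h2.2]

private theorem subst_int (x : ℂ × ℂ) (g : ℝ → ℝ) (hg : Continuous g)
    (hper : ∀ t, g (t + 2 * Real.pi) = g t) :
    ∫ u in (0 : ℝ)..(2 * Real.pi), g (u + st (rot u x)) * (1 - 6 * k3 (rot u x) - 20 * k5 (rot u x)) =
      ∫ t in (0 : ℝ)..(2 * Real.pi), g t := by
  have hc : Continuous fun u => (1 - 6 * k3 (rot u x) - 20 * k5 (rot u x)) := by
    have h := continuous_rot x
    exact (continuous_const.sub (continuous_const.mul (continuous_k3.comp h))).sub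
      (continuous_const.mul (continuous_k5.comp h))
  have h := intervalIntegral.integral_comp_mul_deriv (a := 0) (b := 2 * Real.pi)
    (f := fun u => u + st (rot u x)) (g := g) (fun u _ => hasDerivAt_T x u) hc.continuousOn hg
  have e : ∫ u in (0 : ℝ)..(2 * Real.pi),
      g (u + st (rot u x)) * (1 - 6 * k3 (rot u x) - 20 * k5 (rot u x)) =
      ∫ t in ((0 : ℝ) + st (rot 0 x))..(2 * Real.pi + st (rot (2 * Real.pi) x)), g t := h
  rw [e]
  have hr : rot (2 * Real.pi) x = rot 0 x := by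
    have := rot_per 0 x
    rwa [zero_add] at this
  rw [hr]
  have hp : Function.Periodic g (2 * Real.pi) := hper
  have h2 := hp.intervalIntegral_add_eq (0 + st (rot 0 x)) 0
  rw [zero_add (2 * Real.pi)] at h2
  rw [← h2]
  congr 1
  ring

private theorem subst_est (x : ℂ × ℂ) (hx : ‖x‖ ≤ 1 / 1000) (ω : ℂ) (hω : ‖ω‖ ≤ 1) (n : ℕ) (hn : n ≤ 10)
    (w : ℝ → ℝ) (hw : Continuous w) (hper : ∀ t, w (t + 2 * Real.pi) = w t) :
    (∫ t in (0 : ℝ)..(2 * Real.pi), w t * wW ω n t) - 400 * (‖x‖ * n1 w) ≤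
      ∫ u in (0 : ℝ)..(2 * Real.pi),
        w (u + st (rot u x)) * (zh (rot u x) (st (rot u x))).re * wW ω n u := by
  have hrot := continuous_rot x
  have hst : Continuous fun u => st (rot u x) := continuous_st.comp hrot
  have hT : Continuous fun u => u + st (rot u x) := continuous_id.add hst
  have hwT : Continuous fun u => w (u + st (rot u x)) := hw.comp hT
  have hzh : Continuous fun u => (zh (rot u x) (st (rot u x))).re :=
    Complex.continuous_re.comp (contDiff_zh.continuous.comp (hrot.prodMk hst))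
  have hW := continuous_wW ω n
  have hd : Continuous fun u => (1 - 6 * k3 (rot u x) - 20 * k5 (rot u x)) :=
    (continuous_const.sub (continuous_const.mul (continuous_k3.comp hrot))).sub
      (continuous_const.mul (continuous_k5.comp hrot))
  have e1 := subst_int x (fun t => w t * wW ω n t) (hw.mul hW)
    (fun t => by rw [hper, wW_per])
  have e2 := subst_int x (fun t => |w t|) hw.abs (fun t => by rw [hper])
  have hX := norm_nonneg x
  have hd1 : ∀ u, |(1 - 6 * k3 (rot u x) - 20 * k5 (rot u x)) - 1| ≤ 26 * ‖x‖ := by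
    intro u
    have h1 := abs_k3 (rot u x)
    have h2 := abs_k5 (rot u x)
    rw [norm_rot_fst] at h1
    rw [norm_rot_snd] at h2
    have h3 := fst_le x
    have h4 := snd_le x
    rw [abs_le] at *
    constructor <;> linarith [h1.1, h1.2, h2.1, h2.2]
  have hpt : ∀ u, |w (u + st (rot u x)) * wW ω n (u + st (rot u x)) *
      (1 - 6 * k3 (rot u x) - 20 * k5 (rot u x)) -
      w (u + st (rot u x)) * (zh (rot u x) (st (rot u x))).re * wW ω n u| ≤
      200 * ‖x‖ * |w (u + st (rot u x))| := by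
    intro u
    have h1 : w (u + st (rot u x)) * wW ω n (u + st (rot u x)) *
      (1 - 6 * k3 (rot u x) - 20 * k5 (rot u x)) -
      w (u + st (rot u x)) * (zh (rot u x) (st (rot u x))).re * wW ω n u =
      w (u + st (rot u x)) * (wW ω n (u + st (rot u x)) *
        ((1 - 6 * k3 (rot u x) - 20 * k5 (rot u x)) - 1)
        + (wW ω n (u + st (rot u x)) - wW ω n u)
        - wW ω n u * ((zh (rot u x) (st (rot u x))).re - 1)) := by ring
    rw [h1, abs_mul, mul_comm]
    refine mul_le_mul_of_nonneg_right ?_ (abs_nonneg _)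
    have b1 := hd1 u
    have b2 := wW_bd hω n (u + st (rot u x))
    have b3 := wW_bd hω n u
    have b4 := wW_lip hω n hn (u + st (rot u x)) u
    have b5 := abs_st (rot u x)
    rw [norm_rot] at b5
    have b6 := re_zh (rot u x)
    rw [norm_rot] at b6
    rw [add_sub_cancel_left] at b4
    have c1 : |wW ω n (u + st (rot u x)) * ((1 - 6 * k3 (rot u x) - 20 * k5 (rot u x)) - 1)| ≤
        2 * (26 * ‖x‖) := by
      rw [abs_mul, abs_of_nonneg b2.1]
      exact mul_le_mul b2.2 b1 (abs_nonneg _) (by norm_num)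
    have c2 : |wW ω n u * ((zh (rot u x) (st (rot u x))).re - 1)| ≤ 2 * (8 * ‖x‖) := by
      rw [abs_mul, abs_of_nonneg b3.1]
      exact mul_le_mul b3.2 b6 (abs_nonneg _) (by norm_num)
    have c3 : |wW ω n (u + st (rot u x)) - wW ω n u| ≤ 60 * ‖x‖ := by linarith
    refine (abs_sub _ _).trans ?_
    refine (add_le_add (abs_add_le _ _) le_rfl).trans ?_
    linarith
  have hint : ∫ u in (0 : ℝ)..(2 * Real.pi), |w (u + st (rot u x))| ≤ 2 * n1 w := by
    have h1 : ∫ u in (0 : ℝ)..(2 * Real.pi), |w (u + st (rot u x))| ≤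
        ∫ u in (0 : ℝ)..(2 * Real.pi),
          2 * (|w (u + st (rot u x))| * (1 - 6 * k3 (rot u x) - 20 * k5 (rot u x))) := by
      refine intervalIntegral.integral_mono_on (by positivity) (hwT.abs.intervalIntegrable _ _)
        ((continuous_const.mul (hwT.abs.mul hd)).intervalIntegrable _ _) fun u _ => ?_
      have h := hd1 u
      rw [abs_le] at h
      have h0 := abs_nonneg (w (u + st (rot u x)))
      nlinarith [h.1]
    rw [intervalIntegral.integral_const_mul, e2] at h1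
    exact h1
  have hdiff : |(∫ u in (0 : ℝ)..(2 * Real.pi), w (u + st (rot u x)) * wW ω n (u + st (rot u x)) *
      (1 - 6 * k3 (rot u x) - 20 * k5 (rot u x))) -
      ∫ u in (0 : ℝ)..(2 * Real.pi),
        w (u + st (rot u x)) * (zh (rot u x) (st (rot u x))).re * wW ω n u| ≤
      200 * ‖x‖ * (2 * n1 w) := by
    have hWT : Continuous fun u => wW ω n (u + st (rot u x)) := hW.comp hT
    have c1 : Continuous fun u => w (u + st (rot u x)) * wW ω n (u + st (rot u x)) *
      (1 - 6 * k3 (rot u x) - 20 * k5 (rot u x)) := (hwT.mul hWT).mul hd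
    have c2 : Continuous fun u => w (u + st (rot u x)) * (zh (rot u x) (st (rot u x))).re * wW ω n u :=
      (hwT.mul hzh).mul hW
    rw [← intervalIntegral.integral_sub (c1.intervalIntegrable _ _) (c2.intervalIntegrable _ _)]
    refine (intervalIntegral.abs_integral_le_integral_abs (by positivity)).trans ?_
    refine (intervalIntegral.integral_mono_on (g := fun u => 200 * ‖x‖ * |w (u + st (rot u x))|)
      (by positivity)
      ((c1.sub c2).abs.intervalIntegrable _ _)
      ((continuous_const.mul hwT.abs).intervalIntegrable _ _) fun u _ => hpt u).trans ?_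
    rw [intervalIntegral.integral_const_mul]
    exact mul_le_mul_of_nonneg_left hint (by positivity)
  rw [← e1]
  rw [abs_le] at hdiff
  linarith [hdiff.2]

/-! ### bounds for the norms -/

private theorem mean_bd {η : ℝ} {w w' : ℝ → ℝ} (h : Rough η w w')
    (hm : ∫ t in (0 : ℝ)..(2 * Real.pi), w t = 0) {t : ℝ} (ht : t ∈ Icc (0 : ℝ) (2 * Real.pi)) :
    |w t| ≤ n1 w' := by
  have hpi := Real.pi_pos
  have habs : IntervalIntegrable (fun s => |w' s|) volume 0 (2 * Real.pi) := (h.int' _ _).abs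
  have key : ∀ s ∈ Icc (0 : ℝ) (2 * Real.pi), |w t - w s| ≤ n1 w' := by
    have aux : ∀ a b : ℝ, 0 ≤ a → a ≤ b → b ≤ 2 * Real.pi → |w b - w a| ≤ n1 w' := by
      intro a b ha hab hb
      rw [← h.ftc a b]
      refine (intervalIntegral.abs_integral_le_integral_abs hab).trans ?_
      exact intervalIntegral.integral_mono_interval ha hab hb
        (Filter.Eventually.of_forall fun _ => abs_nonneg _) habs
    intro s hs
    rcases le_total s t with hst | hst
    · exact aux s t hs.1 hst ht.2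
    · rw [abs_sub_comm]; exact aux t s ht.1 hst hs.2
  have h1 : ∫ s in (0 : ℝ)..(2 * Real.pi), (w t - w s) = 2 * Real.pi * w t := by
    rw [intervalIntegral.integral_sub intervalIntegrable_const (h.int _ _), hm]
    simp
  have h2 : |∫ s in (0 : ℝ)..(2 * Real.pi), (w t - w s)| ≤ 2 * Real.pi * n1 w' := by
    refine (intervalIntegral.abs_integral_le_integral_abs (by positivity)).trans ?_
    refine (intervalIntegral.integral_mono_on (g := fun _ => n1 w') (by positivity)
      ((continuous_const.sub h.con).abs.intervalIntegrable _ _)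
      intervalIntegrable_const fun s hs => key s hs).trans ?_
    simp
  rw [h1, abs_mul, abs_of_pos (by positivity : (0 : ℝ) < 2 * Real.pi)] at h2
  exact le_of_mul_le_mul_left h2 (by positivity)

private theorem cs {η : ℝ} {w w' : ℝ → ℝ} (h : Rough η w w') :
    n1 w' ^ 2 ≤ 2 * Real.pi * q2 w' := by
  have hpi := Real.pi_pos
  have habs : IntervalIntegrable (fun s => |w' s|) volume 0 (2 * Real.pi) := (h.int' _ _).abs
  have hsq : IntervalIntegrable (fun s => w' s ^ 2) volume 0 (2 * Real.pi) := by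
    have hc : IntervalIntegrable (fun _ : ℝ => η ^ 2) volume 0 (2 * Real.pi) := intervalIntegrable_const
    refine hc.mono_fun (h.mea.pow_const 2).aestronglyMeasurable ?_
    filter_upwards with s
    have h1 := h.bdd' s
    rw [Real.norm_eq_abs, Real.norm_eq_abs, abs_of_nonneg (sq_nonneg _), abs_of_nonneg (sq_nonneg _)]
    rw [← sq_abs (w' s)]
    exact pow_le_pow_left₀ (abs_nonneg _) h1 2
  set I := n1 w' with hI
  have h0 : 0 ≤ ∫ s in (0 : ℝ)..(2 * Real.pi), (|w' s| - I / (2 * Real.pi)) ^ 2 :=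
    intervalIntegral.integral_nonneg (by positivity) fun s _ => sq_nonneg _
  have h1 : ∀ s, (|w' s| - I / (2 * Real.pi)) ^ 2 =
      w' s ^ 2 - (2 * (I / (2 * Real.pi))) * |w' s| + (I / (2 * Real.pi)) ^ 2 := by
    intro s; rw [← sq_abs (w' s)]; ring
  simp_rw [h1] at h0
  rw [intervalIntegral.integral_add (hsq.sub (habs.const_mul _)) intervalIntegrable_const,
    intervalIntegral.integral_sub hsq (habs.const_mul _), intervalIntegral.integral_const_mul] at h0
  have h2 : ∫ s in (0 : ℝ)..(2 * Real.pi), |w' s| = I := rfl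
  have h3 : ∫ s in (0 : ℝ)..(2 * Real.pi), w' s ^ 2 = q2 w' := rfl
  rw [h2, h3] at h0
  simp only [intervalIntegral.integral_const, sub_zero, smul_eq_mul] at h0
  have h4 : 2 * (I / (2 * Real.pi)) * I = I ^ 2 / Real.pi := by field_simp
  have h5 : 2 * Real.pi * (I / (2 * Real.pi)) ^ 2 = I ^ 2 / (2 * Real.pi) := by field_simp
  rw [h4, h5] at h0
  have h6 : I ^ 2 / Real.pi = 2 * (I ^ 2 / (2 * Real.pi)) := by field_simp
  rw [h6] at h0
  have h7 : I ^ 2 / (2 * Real.pi) ≤ q2 w' := by linarith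
  rwa [div_le_iff₀ (by positivity), mul_comm] at h7

private theorem q2_nonneg (w : ℝ → ℝ) : 0 ≤ q2 w :=
  intervalIntegral.integral_nonneg (by positivity) fun s _ => sq_nonneg _

private theorem n1_nonneg (w : ℝ → ℝ) : 0 ≤ n1 w :=
  intervalIntegral.integral_nonneg (by positivity) fun s _ => abs_nonneg _

private theorem n1_bd {η : ℝ} {w w' : ℝ → ℝ} (h : Rough η w w')
    (hm : ∫ t in (0 : ℝ)..(2 * Real.pi), w t = 0) : n1 w ≤ 49 * Real.sqrt (q2 w') := by
  have hpi := Real.pi_pos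
  have h4 : Real.pi ≤ 4 := Real.pi_le_four
  have h1 : n1 w ≤ 2 * Real.pi * n1 w' := by
    refine (intervalIntegral.integral_mono_on (g := fun _ => n1 w') (by positivity)
      (h.con.abs.intervalIntegrable _ _) intervalIntegrable_const fun s hs => mean_bd h hm hs).trans ?_
    simp
  have h2 : n1 w' ≤ 6 * Real.sqrt (q2 w') := by
    refine le_of_sq_le_sq ?_ (by positivity)
    rw [mul_pow, Real.sq_sqrt (q2_nonneg _)]
    refine (cs h).trans ?_
    have := q2_nonneg w'
    nlinarith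
  have h3 := n1_nonneg w'
  have h5 := Real.sqrt_nonneg (q2 w')
  nlinarith

private theorem q2_bd {η : ℝ} {w w' : ℝ → ℝ} (h : Rough η w w')
    (hm : ∫ t in (0 : ℝ)..(2 * Real.pi), w t = 0) : q2 w ≤ 64 * q2 w' := by
  have hpi := Real.pi_pos
  have h4 : Real.pi ≤ 4 := Real.pi_le_four
  have h1 : q2 w ≤ 2 * Real.pi * n1 w' ^ 2 := by
    refine (intervalIntegral.integral_mono_on (g := fun _ => n1 w' ^ 2) (by positivity)
      ((h.con.pow 2).intervalIntegrable _ _) intervalIntegrable_const fun s hs => ?_).trans ?_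
    · change w s ^ 2 ≤ _
      rw [← sq_abs (w s)]
      exact pow_le_pow_left₀ (abs_nonneg _) (mean_bd h hm hs) 2
    · simp
  have h2 := cs h
  have h3 := q2_nonneg w'
  nlinarith [mul_le_mul_of_nonneg_left h2 (by positivity : (0 : ℝ) ≤ 2 * Real.pi),
    mul_nonneg hpi.le h3, mul_nonneg (mul_nonneg hpi.le hpi.le) h3]

/-! ### the weighted inequality -/

private theorem four (ω : ℂ) (n : ℕ) {w : ℝ → ℝ} (hw : Continuous w)
    (hm : ∫ t in (0 : ℝ)..(2 * Real.pi), w t = 0) :
    (∫ t in (0 : ℝ)..(2 * Real.pi), w t * wW ω n t) +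
      (∫ t in (0 : ℝ)..(2 * Real.pi),
        w t * (wW ω n (t - Real.pi / 3) + wW ω n (t + Real.pi / 3))) =
      (1 + 2 * Real.cos ((n : ℝ) * (Real.pi / 3))) * (ω * wf w n).re := by
  have hW := continuous_wW ω n
  have c1 : Continuous fun t => w t * wW ω n t := hw.mul hW
  have c2 : Continuous fun t => w t * (wW ω n (t - Real.pi / 3) + wW ω n (t + Real.pi / 3)) :=
    hw.mul ((hW.comp (continuous_id.sub continuous_const)).add
      (hW.comp (continuous_id.add continuous_const)))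
  rw [← intervalIntegral.integral_add (c1.intervalIntegrable _ _) (c2.intervalIntegrable _ _)]
  have e : ∀ t, w t * wW ω n t + w t * (wW ω n (t - Real.pi / 3) + wW ω n (t + Real.pi / 3)) =
      3 * w t + (1 + 2 * Real.cos ((n : ℝ) * (Real.pi / 3))) *
        (ω * ((w t : ℂ) * ee (-(((n : ℤ)) : ℝ) * t))).re := by
    intro t
    rw [← mul_add, wW_sum]
    have h : (ω * ((w t : ℂ) * ee (-(((n : ℤ)) : ℝ) * t))).re = w t * (ω * ee (-(n : ℝ) * t)).re := by
      rw [← mul_assoc, mul_comm ω (w t : ℂ), mul_assoc, Complex.re_ofReal_mul]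
      push_cast
      rfl
    rw [h]
    ring
  simp_rw [e]
  have c3 : Continuous fun t : ℝ => ω * ((w t : ℂ) * ee (-(((n : ℤ)) : ℝ) * t)) :=
    continuous_const.mul ((Complex.continuous_ofReal.comp hw).mul
      (continuous_ee.comp (continuous_const.mul continuous_id)))
  have c4 : Continuous fun t : ℝ => (1 + 2 * Real.cos ((n : ℝ) * (Real.pi / 3))) *
      (ω * ((w t : ℂ) * ee (-(((n : ℤ)) : ℝ) * t))).re :=
    continuous_const.mul (Complex.continuous_re.comp c3)
  have c5 : Continuous fun t : ℝ => 3 * w t := continuous_const.mul hw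
  rw [intervalIntegral.integral_add (c5.intervalIntegrable _ _) (c4.intervalIntegrable _ _),
    intervalIntegral.integral_const_mul, hm, mul_zero, zero_add, intervalIntegral.integral_const_mul]
  congr 1
  have h := ContinuousLinearMap.intervalIntegral_comp_comm Complex.reCLM
    (c3.intervalIntegrable (μ := volume) 0 (2 * Real.pi))
  rw [intervalIntegral.integral_const_mul] at h
  simpa [wf] using h

private theorem area_bd {η : ℝ} {w w' : ℝ → ℝ} (h : Rough η w w') (x : ℂ × ℂ) (hx : ‖x‖ ≤ 1 / 1000)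
    (hm : ∫ t in (0 : ℝ)..(2 * Real.pi), w t = 0) :
    ∫ t in (0 : ℝ)..(2 * Real.pi), (1 + w t) ^ 2 * h0 (rot t x) ≤
      (∫ t in (0 : ℝ)..(2 * Real.pi), h0 (rot t x)) + 60 * (‖x‖ * n1 w) + 2 * q2 w ∧
    ∫ t in (0 : ℝ)..(2 * Real.pi), h0 (rot t x) ≤ 16 := by
  have hX := norm_nonneg x
  have hh0 : Continuous fun t => h0 (rot t x) := continuous_h0.comp (continuous_rot x)
  have hb : ∀ t, |h0 (rot t x) - 1| ≤ 30 * ‖x‖ := by
    intro t
    have := abs_h0_sub (rot t x) (by rw [norm_rot]; linarith)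
    rwa [norm_rot] at this
  constructor
  · have c0 : Continuous fun t => (1 + w t) ^ 2 * h0 (rot t x) :=
      ((continuous_const.add h.con).pow 2).mul hh0
    have cR : Continuous fun t => h0 (rot t x) + 60 * ‖x‖ * |w t| + 2 * w t ^ 2 + 2 * w t :=
      ((hh0.add (continuous_const.mul h.con.abs)).add (continuous_const.mul (h.con.pow 2))).add
        (continuous_const.mul h.con)
    have h1 := intervalIntegral.integral_mono_on (by positivity : (0 : ℝ) ≤ 2 * Real.pi)
      (c0.intervalIntegrable _ _) (cR.intervalIntegrable (μ := volume) _ _) (fun t _ => by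
        have b := hb t
        have b' := b
        rw [abs_le] at b'
        have e : (1 + w t) ^ 2 * h0 (rot t x) =
          h0 (rot t x) + 2 * w t + 2 * (w t * (h0 (rot t x) - 1)) + w t ^ 2 * h0 (rot t x) := by ring
        have b2 : w t * (h0 (rot t x) - 1) ≤ |w t| * (30 * ‖x‖) := by
          refine (le_abs_self _).trans ?_
          rw [abs_mul]
          exact mul_le_mul_of_nonneg_left b (abs_nonneg _)
        have b3 : w t ^ 2 * h0 (rot t x) ≤ w t ^ 2 * 2 :=
          mul_le_mul_of_nonneg_left (by linarith [b'.2]) (sq_nonneg _)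
        show (1 + w t) ^ 2 * h0 (rot t x) ≤ h0 (rot t x) + 60 * ‖x‖ * |w t| + 2 * w t ^ 2 + 2 * w t
        rw [e]
        linarith)
    refine h1.trans (le_of_eq ?_)
    have d1 : Continuous fun t => h0 (rot t x) + 60 * ‖x‖ * |w t| + 2 * w t ^ 2 :=
      (hh0.add (continuous_const.mul h.con.abs)).add (continuous_const.mul (h.con.pow 2))
    have d2 : Continuous fun t => h0 (rot t x) + 60 * ‖x‖ * |w t| :=
      hh0.add (continuous_const.mul h.con.abs)
    have d3 : Continuous fun t => 60 * ‖x‖ * |w t| := continuous_const.mul h.con.abs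
    have d4 : Continuous fun t => 2 * w t ^ 2 := continuous_const.mul (h.con.pow 2)
    have d5 : Continuous fun t => 2 * w t := continuous_const.mul h.con
    rw [intervalIntegral.integral_add (d1.intervalIntegrable _ _) (d5.intervalIntegrable _ _),
      intervalIntegral.integral_add (d2.intervalIntegrable _ _) (d4.intervalIntegrable _ _),
      intervalIntegral.integral_add (hh0.intervalIntegrable _ _) (d3.intervalIntegrable _ _),
      intervalIntegral.integral_const_mul, intervalIntegral.integral_const_mul,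
      intervalIntegral.integral_const_mul, hm]
    unfold n1 q2
    ring
  · have h1 := intervalIntegral.integral_mono_on (by positivity : (0 : ℝ) ≤ 2 * Real.pi)
      (hh0.intervalIntegrable (μ := volume) _ _) (g := fun _ => 2) intervalIntegrable_const
      (fun t _ => by
        have b := hb t
        rw [abs_le] at b
        linarith [b.2])
    refine h1.trans ?_
    have := Real.pi_le_four
    simp
    linarith

private theorem exω (z : ℂ) : ∃ ω : ℂ, ‖ω‖ ≤ 1 ∧ (ω * z).re = ‖z‖ := by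
  by_cases hz : z = 0
  · exact ⟨0, by simp, by simp [hz]⟩
  · have hn : (‖z‖ : ℂ) ≠ 0 := by
      rw [Ne, Complex.ofReal_eq_zero]; exact norm_ne_zero_iff.2 hz
    refine ⟨(starRingEnd ℂ) z / (‖z‖ : ℂ), ?_, ?_⟩
    · rw [norm_div, RCLike.norm_conj, Complex.norm_real, norm_norm, div_self (norm_ne_zero_iff.2 hz)]
    · have : (starRingEnd ℂ) z / (‖z‖ : ℂ) * z = (‖z‖ : ℂ) := by
        rw [div_mul_eq_mul_div, mul_comm, Complex.mul_conj, Complex.normSq_eq_norm_sq]
        rw [div_eq_iff hn]; push_cast; ring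
      rw [this, Complex.ofReal_re]

private theorem exω' (z : ℂ) : ∃ ω : ℂ, ‖ω‖ ≤ 1 ∧ (z ^ 2 * (starRingEnd ℂ) ω).re = -‖z‖ ^ 2 := by
  by_cases hz : z = 0
  · exact ⟨0, by simp, by simp [hz]⟩
  · have hn0 := norm_ne_zero_iff.2 hz
    have hn : (‖z‖ : ℂ) ≠ 0 := by
      rw [Ne, Complex.ofReal_eq_zero]; exact hn0
    refine ⟨-(z ^ 2 / (‖z‖ : ℂ) ^ 2), ?_, ?_⟩
    · rw [norm_neg, norm_div, norm_pow, norm_pow, Complex.norm_real, norm_norm,
        div_self (pow_ne_zero 2 hn0)]
    · have : z ^ 2 * (starRingEnd ℂ) (-(z ^ 2 / (‖z‖ : ℂ) ^ 2)) = ((-‖z‖ ^ 2 : ℝ) : ℂ) := by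
        have h1 : (starRingEnd ℂ) (-(z ^ 2 / (‖z‖ : ℂ) ^ 2)) =
            -(((starRingEnd ℂ) z) ^ 2 / (‖z‖ : ℂ) ^ 2) := by
          simp
        have h2 : z * (starRingEnd ℂ) z = (‖z‖ : ℂ) ^ 2 := by
          rw [Complex.mul_conj, Complex.normSq_eq_norm_sq]; push_cast; ring
        rw [h1]
        have h3 : z ^ 2 * -(((starRingEnd ℂ) z) ^ 2 / (‖z‖ : ℂ) ^ 2) =
            -((z * (starRingEnd ℂ) z) ^ 2 / (‖z‖ : ℂ) ^ 2) := by ring
        rw [h3, h2]
        push_cast
        field_simp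
      rw [this, Complex.ofReal_re]

private theorem claim (h₁ : StGeo) {r : ℝ} {sp sm : (ℂ × ℂ) × (ℝ × ℝ) → ℝ} (hC : Chd r sp sm)
    {κp κm : ℂ × ℂ → ℝ} {C1 C3 η μ : ℝ} {K : Set ℂ} {x : ℂ × ℂ} {w w' : ℝ → ℝ}
    (hxr : ‖x‖ < r) (hx : ‖x‖ ≤ 1 / 1000) (hη : η ≤ 1 / 1000) (hμ : 0 ≤ μ) (hμ1 : μ ≤ 1)
    (hS : Stg η μ K x w w')
    (hcf : Continuous (cf C1 η sp sm κp κm w x) ∧
      (∀ u, cf C1 η sp sm κp κm w x (u + 2 * Real.pi) = cf C1 η sp sm κp κm w x u) ∧
      (∀ u, ∃ c, cf C1 η sp sm κp κm w x u ≤ c ∧ Chord K u c))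
    (ω : ℂ) (hω : ‖ω‖ ≤ 1) (m : ℕ) (hm0 : m ≠ 0) (hm5 : m ≤ 5)
    (hci : (∫ u in (0 : ℝ)..(2 * Real.pi), cc sp (rot u x, 0) * wW ω (2 * m) u)
      + (∫ t in (0 : ℝ)..(2 * Real.pi),
        w t * (wW ω (2 * m) (t - Real.pi / 3) + wW ω (2 * m) (t + Real.pi / 3)))
      - C3 * ((1 + C1) * (‖x‖ * n1 w + q2 w')) ≤
      ∫ u in (0 : ℝ)..(2 * Real.pi), cf C1 η sp sm κp κm w x u * wW ω (2 * m) u) :
    bW sp x ω (2 * m) + (1 + 2 * Real.cos (((2 * m : ℕ) : ℝ) * (Real.pi / 3))) *
      (ω * wf w ((2 * m : ℕ) : ℤ)).re ≤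
      580 * (‖x‖ * n1 w) + C3 * ((1 + C1) * (‖x‖ * n1 w + q2 w')) + 6 * q2 w + 24 * μ := by
  have hpi := Real.pi_pos
  have hX := norm_nonneg x
  have hR := hS.rough
  have hw := hR.con
  have hrot := continuous_rot x
  have hst : Continuous fun u => st (rot u x) := continuous_st.comp hrot
  have hT : Continuous fun u => u + st (rot u x) := continuous_id.add hst
  have hwT : Continuous fun u => w (u + st (rot u x)) := hw.comp hT
  have hzh : Continuous fun u => (zh (rot u x) (st (rot u x))).re :=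
    Complex.continuous_re.comp (contDiff_zh.continuous.comp (hrot.prodMk hst))
  have hW := continuous_wW ω (2 * m)
  have hHc : Continuous fun u => (1 + w (u + st (rot u x))) * (zh (rot u x) (st (rot u x))).re :=
    (continuous_const.add hwT).mul hzh
  have hn : 2 * m ≤ 10 := by omega
  have hgeo := h₁ K μ (fun u => (1 + w (u + st (rot u x))) * (zh (rot u x) (st (rot u x))).re)
    (cf C1 η sp sm κp κm w x) (wW ω (2 * m)) hS.body hS.inn hS.sml hHc hcf.1 hW
    (fun u => by
      simp only [rot_per]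
      rw [show u + 2 * Real.pi + st (rot u x) = (u + st (rot u x)) + 2 * Real.pi by ring, hR.per])
    hcf.2.1 (fun u => (wW_bd hω _ u).1) (fun u => wW_pi ω m u)
    (fun u => by
      refine ⟨((1 + w (u + st (rot u x)) : ℝ) : ℂ) * zh x (u + st (rot u x)), ?_, ?_⟩
      · refine (hS.bd (u + st (rot u x)) (w (u + st (rot u x))) ?_).2 le_rfl
        have := hR.bdd (u + st (rot u x))
        rw [abs_le] at this
        linarith [this.1]
      · refine le_of_eq ?_
        have e : ((1 + w (u + st (rot u x)) : ℝ) : ℂ) * zh x (u + st (rot u x)) * (starRingEnd ℂ) (ee u) =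
            ((1 + w (u + st (rot u x)) : ℝ) : ℂ) * (zh (rot u x) (st (rot u x)) *
              (ee u * (starRingEnd ℂ) (ee u))) := by
          rw [zh_rot]; ring
        rw [e, ee_mul_conj, mul_one, Complex.re_ofReal_mul])
    hcf.2.2
  rw [int_wW ω (2 * m) (by omega)] at hgeo
  obtain ⟨hM, hH0⟩ := area_bd hR x hx hS.mean
  have hest := subst_est x hx ω hω (2 * m) hn w hw hR.per
  have hfour := four ω (2 * m) hw hS.mean
  -- continuity of the base chord
  have hcc : Continuous fun u => cc sp (rot u x, 0) := by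
    have hmem : ∀ u, ((rot u x, 0) : (ℂ × ℂ) × (ℝ × ℝ)) ∈ ball (0 : (ℂ × ℂ) × (ℝ × ℝ)) r := by
      intro u
      rw [mem_ball_zero_iff, Prod.norm_def, norm_rot]
      simpa using hxr
    have hpair : Continuous fun u => ((rot u x, 0) : (ℂ × ℂ) × (ℝ × ℝ)) := hrot.prodMk continuous_const
    have hsp : Continuous fun u => sp (rot u x, 0) := by
      rw [continuous_iff_continuousAt]
      intro u
      exact ContinuousAt.comp (f := fun u => ((rot u x, 0) : (ℂ × ℂ) × (ℝ × ℝ)))
        (hC.cp.continuousOn.continuousAt (isOpen_ball.mem_nhds (hmem u))) hpair.continuousAt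
    have hz : Continuous fun u => zh (rot u x) (sp (rot u x, 0)) :=
      contDiff_zh.continuous.comp (hrot.prodMk hsp)
    have hz2 : (fun u => cc sp (rot u x, 0)) = fun u => (zh (rot u x) (sp (rot u x, 0))).re := by
      funext u
      simp [cc]
    rw [hz2]
    exact Complex.continuous_re.comp hz
  have c1 : Continuous fun u => (zh (rot u x) (st (rot u x))).re * wW ω (2 * m) u := hzh.mul hW
  have c2 : Continuous fun u => cc sp (rot u x, 0) * wW ω (2 * m) u := hcc.mul hW
  have c3 : Continuous fun u => cf C1 η sp sm κp κm w x u * wW ω (2 * m) u := hcf.1.mul hW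
  have c4 : Continuous fun u =>
      w (u + st (rot u x)) * (zh (rot u x) (st (rot u x))).re * wW ω (2 * m) u := (hwT.mul hzh).mul hW
  have hb : bW sp x ω (2 * m) =
      (∫ u in (0 : ℝ)..(2 * Real.pi), (zh (rot u x) (st (rot u x))).re * wW ω (2 * m) u)
      + (∫ u in (0 : ℝ)..(2 * Real.pi), cc sp (rot u x, 0) * wW ω (2 * m) u)
      - 3 / 2 * ∫ t in (0 : ℝ)..(2 * Real.pi), h0 (rot t x) := by
    unfold bW
    rw [← intervalIntegral.integral_add (c1.intervalIntegrable _ _) (c2.intervalIntegrable _ _)]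
    congr 2
    funext u
    ring
  have hsplit : ∫ u in (0 : ℝ)..(2 * Real.pi),
      ((1 + w (u + st (rot u x))) * (zh (rot u x) (st (rot u x))).re + cf C1 η sp sm κp κm w x u) *
        wW ω (2 * m) u =
      (∫ u in (0 : ℝ)..(2 * Real.pi), (zh (rot u x) (st (rot u x))).re * wW ω (2 * m) u)
      + (∫ u in (0 : ℝ)..(2 * Real.pi),
        w (u + st (rot u x)) * (zh (rot u x) (st (rot u x))).re * wW ω (2 * m) u)
      + ∫ u in (0 : ℝ)..(2 * Real.pi), cf C1 η sp sm κp κm w x u * wW ω (2 * m) u := by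
    have c5 : Continuous fun u => (zh (rot u x) (st (rot u x))).re * wW ω (2 * m) u +
      w (u + st (rot u x)) * (zh (rot u x) (st (rot u x))).re * wW ω (2 * m) u := c1.add c4
    rw [← intervalIntegral.integral_add (c1.intervalIntegrable _ _) (c4.intervalIntegrable _ _),
      ← intervalIntegral.integral_add (c5.intervalIntegrable _ _) (c3.intervalIntegrable _ _)]
    congr 1
    funext u
    ring
  rw [hsplit] at hgeo
  have har : 3 / (2 * Real.pi) * (1 + μ) * area K * (2 * Real.pi) = 3 * (1 + μ) * area K := by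
    field_simp
  rw [har, hS.ar] at hgeo
  have hn1 := n1_nonneg w
  have hq2 := q2_nonneg w
  have hXn : 0 ≤ ‖x‖ * n1 w := mul_nonneg hX hn1
  set M := ∫ t in (0 : ℝ)..(2 * Real.pi), (1 + w t) ^ 2 * h0 (rot t x) with hMdef
  set H0 := ∫ t in (0 : ℝ)..(2 * Real.pi), h0 (rot t x) with hH0def
  have hMμ : μ * M ≤ 16 * μ + 60 * (‖x‖ * n1 w) + 2 * q2 w := by
    have h1 : μ * M ≤ μ * (16 + 60 * (‖x‖ * n1 w) + 2 * q2 w) :=
      mul_le_mul_of_nonneg_left (by linarith) hμ
    have h2 : μ * (60 * (‖x‖ * n1 w) + 2 * q2 w) ≤ 1 * (60 * (‖x‖ * n1 w) + 2 * q2 w) :=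
      mul_le_mul_of_nonneg_right hμ1 (by positivity)
    nlinarith
  rw [hb]
  have e9 : 3 * (1 + μ) * (1 / 2 * M) = 3 / 2 * M + 3 / 2 * (μ * M) := by ring
  rw [e9] at hgeo
  push_cast at hfour ⊢
  linarith

theorem hWTS (h₁ : StGeo) (h₂ : StCi1) (h₃ : StCi3) (h₄ : StBwx) : StWts := by
  intro r sp sm hC r' C' κp κm hr' hT
  obtain ⟨C1, r1, hC1, hr1, H1⟩ := h₂ r sp sm hC r' C' κp κm hr' hT
  obtain ⟨C3, r3, hC3, hr3, H3⟩ := h₃ r sp sm hC r' C' κp κm hr' hT
  obtain ⟨C4, r4, hC4, hr4, H4⟩ := h₄ r sp sm hC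
  have hr := hC.pos
  refine ⟨C4 + 49 * (580 + C3 * (1 + C1)) + (384 + C3 * (1 + C1)) + 24,
    min (min r1 r3) (min r4 (min (r / 2) (1 / 1000))), by positivity, by positivity, ?_⟩
  intro η μ K x w w' hx hη hμ hμ1 hS
  have hx1 : ‖x‖ ≤ r1 := hx.trans ((min_le_left _ _).trans (min_le_left _ _))
  have hx3 : ‖x‖ ≤ r3 := hx.trans ((min_le_left _ _).trans (min_le_right _ _))
  have hx4 : ‖x‖ ≤ r4 := hx.trans ((min_le_right _ _).trans (min_le_left _ _))
  have hxr : ‖x‖ ≤ r / 2 :=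
    hx.trans ((min_le_right _ _).trans ((min_le_right _ _).trans (min_le_left _ _)))
  have hxk : ‖x‖ ≤ 1 / 1000 :=
    hx.trans ((min_le_right _ _).trans ((min_le_right _ _).trans (min_le_right _ _)))
  have hη1 : η ≤ r1 := hη.trans ((min_le_left _ _).trans (min_le_left _ _))
  have hη3 : η ≤ r3 := hη.trans ((min_le_left _ _).trans (min_le_right _ _))
  have hηk : η ≤ 1 / 1000 :=
    hη.trans ((min_le_right _ _).trans ((min_le_right _ _).trans (min_le_right _ _)))
  have hcf := H1 K x w w' η hx1 hη1 hS.rough hS.bd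
  have key : ∀ (ω : ℂ), ‖ω‖ ≤ 1 → ∀ m : ℕ, m ≠ 0 → m ≤ 5 →
      bW sp x ω (2 * m) + (1 + 2 * Real.cos (((2 * m : ℕ) : ℝ) * (Real.pi / 3))) *
      (ω * wf w ((2 * m : ℕ) : ℤ)).re ≤
      580 * (‖x‖ * n1 w) + C3 * ((1 + C1) * (‖x‖ * n1 w + q2 w')) + 6 * q2 w + 24 * μ := by
    intro ω hω m hm0 hm5
    exact claim h₁ hC (by linarith) hxk hηk hμ hμ1 hS hcf ω hω m hm0 hm5
      (H3 C1 η x w w' ω (2 * m) hC1.le hx3 hη3 hS.rough hS.mean hω (by omega))
  -- the mode 6
  obtain ⟨ω1, hω1, e1⟩ := exω (wf w 6)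
  have k6 := key ω1 hω1 3 (by norm_num) (by norm_num)
  have b6 := (H4 x ω1 hx4 hω1).1
  have c6 : Real.cos (((2 * 3 : ℕ) : ℝ) * (Real.pi / 3)) = 1 := by
    have : ((2 * 3 : ℕ) : ℝ) * (Real.pi / 3) = 2 * Real.pi := by push_cast; ring
    rw [this, Real.cos_two_pi]
  rw [c6] at k6
  have e1' : (ω1 * wf w ((2 * 3 : ℕ) : ℤ)).re = ‖wf w 6‖ := e1
  rw [e1'] at k6
  have k6' : bW sp x ω1 6 + (1 + 2 * 1) * ‖wf w 6‖ ≤
      580 * (‖x‖ * n1 w) + C3 * ((1 + C1) * (‖x‖ * n1 w + q2 w')) + 6 * q2 w + 24 * μ := k6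
  -- the mode 10
  obtain ⟨ω2, hω2, e2⟩ := exω' x.2
  have k10 := key ω2 hω2 5 (by norm_num) (by norm_num)
  have b10 := (H4 x ω2 hx4 hω2).2
  have c10 : Real.cos (((2 * 5 : ℕ) : ℝ) * (Real.pi / 3)) = -(1 / 2) := by
    have : ((2 * 5 : ℕ) : ℝ) * (Real.pi / 3) = (Real.pi / 3 + Real.pi) + 2 * Real.pi := by
      push_cast; ring
    rw [this, Real.cos_add_two_pi, Real.cos_add_pi, Real.cos_pi_div_three]
  rw [c10] at k10
  have k10' : bW sp x ω2 10 + (1 + 2 * -(1 / 2)) * (ω2 * wf w ((2 * 5 : ℕ) : ℤ)).re ≤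
      580 * (‖x‖ * n1 w) + C3 * ((1 + C1) * (‖x‖ * n1 w + q2 w')) + 6 * q2 w + 24 * μ := k10
  have k10z : (1 + 2 * -(1 / 2) : ℝ) = 0 := by norm_num
  rw [k10z, zero_mul, add_zero] at k10'
  rw [e2] at b10
  rw [abs_le] at b6 b10
  have hX := norm_nonneg x
  have hX3 : 0 ≤ ‖x‖ ^ 3 := pow_nonneg hX 3
  have hq := q2_nonneg w'
  have hsq := Real.sqrt_nonneg (q2 w')
  have hn := n1_bd hS.rough hS.mean
  have hq2 := q2_bd hS.rough hS.mean
  have hXs : 0 ≤ ‖x‖ * Real.sqrt (q2 w') := mul_nonneg hX hsq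
  have hE : 580 * (‖x‖ * n1 w) + C3 * ((1 + C1) * (‖x‖ * n1 w + q2 w')) + 6 * q2 w + 24 * μ ≤
      49 * (580 + C3 * (1 + C1)) * (‖x‖ * Real.sqrt (q2 w')) + (384 + C3 * (1 + C1)) * q2 w' + 24 * μ := by
    have h1 : ‖x‖ * n1 w ≤ ‖x‖ * (49 * Real.sqrt (q2 w')) := mul_le_mul_of_nonneg_left hn hX
    have h2 : (580 + C3 * (1 + C1)) * (‖x‖ * n1 w) ≤
        (580 + C3 * (1 + C1)) * (‖x‖ * (49 * Real.sqrt (q2 w'))) :=
      mul_le_mul_of_nonneg_left h1 (by positivity)
    nlinarith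
  have hpi : 3 < Real.pi := Real.pi_gt_three
  have hx2 : 27 * ‖x.2‖ ^ 2 ≤ 9 * Real.pi * ‖x.2‖ ^ 2 :=
    mul_le_mul_of_nonneg_right (by linarith) (sq_nonneg _)
  have hwf := norm_nonneg (wf w 6)
  have hx20 := sq_nonneg ‖x.2‖
  have r1' : 3 * ‖wf w 6‖ ≤ C4 * ‖x‖ ^ 3 + (49 * (580 + C3 * (1 + C1)) * (‖x‖ * Real.sqrt (q2 w')) +
      (384 + C3 * (1 + C1)) * q2 w' + 24 * μ) := by linarith [b6.1]
  have r2' : 27 * ‖x.2‖ ^ 2 ≤ C4 * ‖x‖ ^ 3 + (49 * (580 + C3 * (1 + C1)) * (‖x‖ * Real.sqrt (q2 w')) +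
      (384 + C3 * (1 + C1)) * q2 w' + 24 * μ) := by linarith [b10.1]
  have r3' : ‖wf w 6‖ + ‖x.2‖ ^ 2 ≤ C4 * ‖x‖ ^ 3 +
      (49 * (580 + C3 * (1 + C1)) * (‖x‖ * Real.sqrt (q2 w')) +
      (384 + C3 * (1 + C1)) * q2 w' + 24 * μ) := by linarith
  refine r3'.trans ?_
  have hA : 0 ≤ 49 * (580 + C3 * (1 + C1)) := by positivity
  have hB : 0 ≤ 384 + C3 * (1 + C1) := by positivity
  have s1 := mul_nonneg hA hX3
  have s2 := mul_nonneg hA hq
  have s3 := mul_nonneg hA hμ
  have s4 := mul_nonneg hB hX3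
  have s5 := mul_nonneg hB hXs
  have s6 := mul_nonneg hB hμ
  have s7 := mul_nonneg hC4.le hXs
  have s8 := mul_nonneg hC4.le hq
  have s9 := mul_nonneg hC4.le hμ
  nlinarith

end Pool.Agent.Helper22.LT
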